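import Pool.Agent.Y557.T.WeakStm

/-!
# The weak abc inequality on all split thin sets (helper641, task UNI-13 of helper557)
-/

set_option autoImplicit false

namespace Pool.Agent.Results.MP_f5a5f7_nt.AllThinSetsAtOnce

open NumberField IsDedekindDomain Polynomial
open Pool.Agent.Y557.U
open Pool.Agent.H691R3 (fv Nv)
open Pool.Agent.TH876.Loc (Pr)
open Pool.Agent.TH876.TM (supp)

/-! ### heights -/

theorem sup3 (f : Fin 3 → ℝ) : ⨆ i, f i = max (f 0) (max (f 1) (f 2)) := by
  refine le_antisymm (ciSup_le fun i => ?_) (max_le ?_ (max_le ?_ ?_))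
  · fin_cases i
    · exact le_max_left _ _
    · exact (le_max_left _ _).trans (le_max_right _ _)
    · exact (le_max_right _ _).trans (le_max_right _ _)
  · exact le_ciSup (f := f) (Set.finite_range _).bddAbove 0
  · exact le_ciSup (f := f) (Set.finite_range _).bddAbove 1
  · exact le_ciSup (f := f) (Set.finite_range _).bddAbove 2

variable {K : Type} [Field K]

theorem vec_ne (x : K) : (![x, 1 - x, 1] : Fin 3 → K) ≠ 0 := fun h => by
  have := congrFun h 2
  simp at this

theorem inf_sup_lo (v : InfinitePlace K) (x : K) :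
    max (v x) 1 ≤ ⨆ i, v ((![x, 1 - x, 1] : Fin 3 → K) i) := by
  rw [sup3]
  simp only [Matrix.cons_val_zero, Matrix.cons_val_one, Matrix.cons_val, map_one]
  exact max_le (le_max_left _ _) ((le_max_right _ _).trans (le_max_right _ _))

theorem inf_sup_up (v : InfinitePlace K) (x : K) :
    ⨆ i, v ((![x, 1 - x, 1] : Fin 3 → K) i) ≤ 2 * max (v x) 1 := by
  rw [sup3]
  simp only [Matrix.cons_val_zero, Matrix.cons_val_one, Matrix.cons_val, map_one]
  have h1 : v (1 - x) ≤ 1 + v x := by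
    have h4 := v.1.add_le 1 (-x)
    have h5 : v.1 (-x) = v.1 x := v.1.map_neg x
    have h6 : v.1 1 = 1 := map_one _
    rw [h5, h6] at h4
    rw [sub_eq_add_neg]
    exact h4
  have h2 : v x ≤ max (v x) 1 := le_max_left _ _
  have h3 : 1 ≤ max (v x) 1 := le_max_right _ _
  refine max_le (by linarith) (max_le (by linarith) (by linarith))

variable [NumberField K]

theorem fin_sup (v : FinitePlace K) (x : K) :
    ⨆ i, v ((![x, 1 - x, 1] : Fin 3 → K) i) = max (v x) 1 := by
  rw [sup3]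
  simp only [Matrix.cons_val_zero, Matrix.cons_val_one, Matrix.cons_val, map_one]
  have h1 : v (1 - x) ≤ max 1 (v x) := by
    have := FinitePlace.add_le v 1 (-x)
    have e : v (-x) = v x := v.1.map_neg x
    rw [map_one, e] at this
    rw [sub_eq_add_neg]
    exact this
  refine le_antisymm (max_le (le_max_left _ _) (max_le (h1.trans (le_of_eq (max_comm _ _)))
    (le_max_right _ _))) (max_le (le_max_left _ _) ((le_max_right _ _).trans (le_max_right _ _)))

theorem mul_lo (x : K) : Height.mulHeight₁ x ≤ Height.mulHeight (![x, 1 - x, 1] : Fin 3 → K) := by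
  rw [NumberField.mulHeight₁_eq, NumberField.mulHeight_eq (vec_ne x)]
  simp only [fin_sup]
  refine mul_le_mul_of_nonneg_right ?_ (finprod_nonneg fun v => ?_)
  · refine Finset.prod_le_prod (fun v _ => by positivity) fun v _ => ?_
    exact pow_le_pow_left₀ (by positivity) (inf_sup_lo v x) _
  · exact zero_le_one.trans (le_max_right _ _)

theorem mul_up (x : K) : Height.mulHeight (![x, 1 - x, 1] : Fin 3 → K) ≤
    2 ^ Module.finrank ℚ K * Height.mulHeight₁ x := by
  rw [NumberField.mulHeight₁_eq, NumberField.mulHeight_eq (vec_ne x)]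
  simp only [fin_sup]
  rw [← mul_assoc]
  refine mul_le_mul_of_nonneg_right ?_ (finprod_nonneg fun v => ?_)
  · rw [← InfinitePlace.sum_mult_eq (K := K), ← Finset.prod_pow_eq_pow_sum,
      ← Finset.prod_mul_distrib]
    refine Finset.prod_le_prod (fun v _ => ?_) fun v _ => ?_
    · exact pow_nonneg ((by positivity : (0 : ℝ) ≤ max (v x) 1).trans (inf_sup_lo v x)) _
    · rw [← mul_pow]
      exact pow_le_pow_left₀ ((by positivity : (0 : ℝ) ≤ max (v x) 1).trans (inf_sup_lo v x))
        (inf_sup_up v x) _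
  · exact zero_le_one.trans (le_max_right _ _)

theorem log_lo (x : K) : Height.logHeight₁ x ≤ Height.logHeight (![x, 1 - x, 1] : Fin 3 → K) := by
  rw [Height.logHeight₁_eq_log_mulHeight₁, Height.logHeight]
  exact Real.log_le_log (zero_lt_one.trans_le (Height.one_le_mulHeight₁ x)) (mul_lo x)

theorem log_up (x : K) : Height.logHeight (![x, 1 - x, 1] : Fin 3 → K) ≤
    Height.logHeight₁ x + Module.finrank ℚ K * Real.log 2 := by
  rw [Height.logHeight₁_eq_log_mulHeight₁, Height.logHeight]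
  have h0 : 0 < Height.mulHeight₁ x := zero_lt_one.trans_le (Height.one_le_mulHeight₁ x)
  have h := Real.log_le_log (zero_lt_one.trans_le (Height.one_le_mulHeight _)) (mul_up x)
  rw [Real.log_mul (by positivity) h0.ne', Real.log_pow] at h
  linarith

theorem log1_eq (x : K) : Height.logHeight₁ x =
    (∑ w : InfinitePlace K, (w.mult : ℝ) * Real.log (max 1 (w x))) +
      ∑ᶠ v : HeightOneSpectrum (𝓞 K), Real.log (max 1 (FinitePlace.mk v x)) := by
  rw [NumberField.logHeight₁_eq, ← finsum_comp_equiv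
    (FinitePlace.equivHeightOneSpectrum (K := K)).symm]
  congr 1
  · refine Finset.sum_congr rfl fun w _ => ?_
    rw [Real.posLog_eq_log_max_one (apply_nonneg w x)]
  · refine finsum_congr fun v => ?_
    exact Real.posLog_eq_log_max_one (apply_nonneg (FinitePlace.mk v) x)

theorem height_eq (x : K) : height x = Height.logHeight₁ x / dgr K := by
  unfold height dgr
  rw [log1_eq, one_div, inv_mul_eq_div]

theorem dgr_pos : 0 < dgr K := lt_of_lt_of_le one_pos (one_le_dgr K)

theorem ht_lo (x : K) : height x ≤ ht (![x, 1 - x, 1] : Fin 3 → K) := by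
  rw [height_eq]
  unfold ht
  exact div_le_div_of_nonneg_right (log_lo x) dgr_pos.le

theorem ht_up (x : K) : ht (![x, 1 - x, 1] : Fin 3 → K) ≤ height x + Real.log 2 := by
  rw [height_eq]
  unfold ht
  have hd := dgr_pos (K := K)
  rw [div_le_iff₀ hd, add_mul, div_mul_cancel₀ _ hd.ne']
  refine (log_up x).trans (le_of_eq ?_)
  unfold dgr
  ring

/-! ### conductors -/

theorem supp_eq {x : K} (h0 : x ≠ 0) (h1 : x ≠ 1) :
    {v : Pr K | v ∉ (∅ : Set (Pr K)) ∧ v ∈ supp (![x, 1 - x, 1] : Fin 3 → K)} =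
      (Pool.Agent.TH876.Loc.sp (-x) : Set (Pr K)) := by
  have heq : ∀ (v : Pr K) (a b : K), fv v a = fv v b ↔ v.valuation K a = v.valuation K b := by
    intro v a b
    constructor
    · intro h
      refine le_antisymm ?_ ?_
      · rw [← not_lt, ← Pool.Agent.Y728.AK.fv_lt_iff, h]
        exact lt_irrefl _
      · rw [← not_lt, ← Pool.Agent.Y728.AK.fv_lt_iff, h]
        exact lt_irrefl _
    · intro h
      refine le_antisymm ?_ ?_
      · rw [← not_lt, Pool.Agent.Y728.AK.fv_lt_iff, h]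
        exact lt_irrefl _
      · rw [← not_lt, Pool.Agent.Y728.AK.fv_lt_iff, h]
        exact lt_irrefl _
  ext v
  rw [Finset.mem_coe, Pool.Agent.TH402.AK.Weak.mem_sp_neg h0 h1, Set.mem_ofPred_eq]
  have hneg : fv v (x - 1) = fv v (1 - x) := by
    have e : x - 1 = -(1 - x) := by ring
    rw [e, (fv v).map_neg]
  constructor
  · rintro ⟨-, i, j, hij⟩ ⟨h2, h3⟩
    rw [hneg] at h3
    apply hij
    rw [← heq]
    have hall : ∀ i, fv v ((![x, 1 - x, 1] : Fin 3 → K) i) = 1 := by
      intro i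
      fin_cases i
      · exact h2
      · exact h3
      · exact map_one _
    rw [hall i, hall j]
  · intro h
    refine ⟨fun h => h, ?_⟩
    by_contra hcon
    apply h
    have hall : ∀ i j, fv v ((![x, 1 - x, 1] : Fin 3 → K) i) =
        fv v ((![x, 1 - x, 1] : Fin 3 → K) j) := by
      intro i j
      rw [heq]
      by_contra h'
      exact hcon ⟨i, j, h'⟩
    have h2 := hall 0 2
    have h3 := hall 1 2
    simp only [Matrix.cons_val_zero, Matrix.cons_val_one, Matrix.cons_val, map_one] at h2 h3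
    exact ⟨h2, by rw [hneg]; exact h3⟩

theorem rS_vec {x : K} (h0 : x ≠ 0) (h1 : x ≠ 1) :
    rS (∅ : Set (Pr K)) (![x, 1 - x, 1] : Fin 3 → K) = conductors x := by
  have h2 := Pool.Agent.TH402.AK.Weak.cond_sum h0 h1
  rw [Pool.Agent.TH876.KR.log_nn] at h2
  have h3 : conductors x = Pool.Agent.TH402.AK.Weak.cond x +
      Pool.Agent.TH402.AK.Weak.cond x⁻¹ + Pool.Agent.TH402.AK.Weak.cond (x - 1) := rfl
  have hd := dgr_pos (K := K)
  unfold rS
  rw [supp_eq h0 h1, finsum_mem_coe_finset, h3, div_eq_iff hd.ne', mul_comm _ (dgr K)]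
  exact h2.symm

theorem supp_smul {n : ℕ} {c : K} (hc : c ≠ 0) (y : Fin n → K) : supp (c • y) = supp y := by
  ext v
  have h0 : v.valuation K c ≠ 0 := (Valuation.ne_zero_iff _).2 hc
  constructor
  · rintro ⟨i, j, h⟩
    refine ⟨i, j, fun h' => h ?_⟩
    rw [Pi.smul_apply, Pi.smul_apply, smul_eq_mul, smul_eq_mul, map_mul, map_mul, h']
  · rintro ⟨i, j, h⟩
    refine ⟨i, j, fun h' => h ?_⟩
    rw [Pi.smul_apply, Pi.smul_apply, smul_eq_mul, smul_eq_mul, map_mul, map_mul] at h'
    exact mul_left_cancel₀ h0 h'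

theorem rS_smul {n : ℕ} (S : Set (Pr K)) {c : K} (hc : c ≠ 0) (y : Fin n → K) :
    rS S (c • y) = rS S y := by
  unfold rS
  rw [supp_smul hc]

theorem ht_smul {n : ℕ} {c : K} (hc : c ≠ 0) (y : Fin n → K) : ht (c • y) = ht y := by
  unfold ht Height.logHeight
  rw [Height.mulHeight_smul_eq_mulHeight _ hc]

/-! ### the coordinates -/

omit [NumberField K] in
theorem coordinates_eq (D : ℕ) (P : Fin 3 → K[X]) : coordinates D P = co D P := by
  funext t
  cases t <;> rfl

omit [NumberField K] in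
theorem co_sum {D : ℕ} {P : Fin 3 → K[X]} (h : P 0 + P 1 = P 2) (t : Option K) :
    co D P t 0 + co D P t 1 = co D P t 2 := by
  cases t with
  | none =>
    show (P 0).coeff D + (P 1).coeff D = (P 2).coeff D
    rw [← h, coeff_add]
  | some t =>
    show (P 0).eval t + (P 1).eval t = (P 2).eval t
    rw [← h, eval_add]

omit [NumberField K] in
theorem co_eq {D : ℕ} {P : Fin 3 → K[X]} (h : P 0 + P 1 = P 2) {t : Option K}
    (h2 : co D P t 2 ≠ 0) : co D P t = co D P t 2 •
      (![co D P t 0 / co D P t 2, 1 - co D P t 0 / co D P t 2, 1] : Fin 3 → K) := by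
  have h3 := co_sum (D := D) h t
  funext i
  rw [Pi.smul_apply, smul_eq_mul]
  fin_cases i
  · show co D P t 0 = co D P t 2 * (co D P t 0 / co D P t 2)
    field_simp
  · show co D P t 1 = co D P t 2 * (1 - co D P t 0 / co D P t 2)
    field_simp
    rw [← h3]
    ring
  · show co D P t 2 = co D P t 2 * 1
    rw [mul_one]

omit [NumberField K] in
/-- the point of a number is determined by the number -/
theorem phi_inj : Function.Injective fun x : K =>
    Projectivization.mk K (![x, 1 - x, 1] : Fin 3 → K) (vec_ne x) := by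
  intro x y h
  obtain ⟨a, ha⟩ := (Projectivization.mk_eq_mk_iff' K _ _ (vec_ne x) (vec_ne y)).1 h
  have h2 := congrFun ha 2
  have h0 := congrFun ha 0
  rw [Pi.smul_apply, smul_eq_mul] at h0 h2
  simp only [Matrix.cons_val_zero, Matrix.cons_val, mul_one] at h0 h2
  rw [h2, one_mul] at h0
  exact h0.symm

theorem isFunction_ck {D q : ℕ} {B : ℝ} {P : Fin 3 → K[X]} (h : IsFunction D q B P) :
    Ck 3 D q B ∅ P := by
  have hB : 0 ≤ B := by
    refine le_trans ?_ h.height_le
    refine div_nonneg ?_ (Nat.cast_nonneg _)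
    exact Real.log_nonneg (Height.one_le_mulHeight _)
  refine ⟨h.ne_zero, h.splits, ?_, h.degree_le, h.degree_eq, h.points, ?_, h.height_le⟩
  · obtain ⟨a, b, hab⟩ := h.coprime
    refine ⟨![a, b, 0], ?_⟩
    rw [Fin.sum_univ_three]
    simp only [Matrix.cons_val_zero, Matrix.cons_val_one, Matrix.cons_val, zero_mul, add_zero]
    exact hab
  · rw [Finset.sum_empty, zero_div]
    exact hB

/-- the quantities at a value of a function -/
theorem value_data {D : ℕ} {P : Fin 3 → K[X]} (hs : P 0 + P 1 = P 2) {t : Option K} {x : K}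
    (h0 : x ≠ 0) (h1 : x ≠ 1) (h2 : co D P t 2 ≠ 0) (hx : x = co D P t 0 / co D P t 2) :
    ∃ hne : co D P t ≠ 0, Projectivization.mk K (![x, 1 - x, 1] : Fin 3 → K) (vec_ne x) =
        Projectivization.mk K (co D P t) hne ∧ (∀ i, co D P t i ≠ 0) ∧
      rS (∅ : Set (Pr K)) (co D P t) = conductors x ∧ height x ≤ ht (co D P t) ∧
      ht (co D P t) ≤ height x + Real.log 2 := by
  have e := co_eq hs h2
  rw [← hx] at e
  have hne : co D P t ≠ 0 := fun h => h2 (congrFun h 2)
  refine ⟨hne, ?_, ?_, ?_, ?_, ?_⟩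
  · rw [Projectivization.mk_eq_mk_iff']
    refine ⟨(co D P t 2)⁻¹, ?_⟩
    rw [e]
    have e3 : (co D P t 2 • (![x, 1 - x, 1] : Fin 3 → K)) 2 = co D P t 2 := by
      rw [Pi.smul_apply, smul_eq_mul]
      simp
    rw [e3, smul_smul, inv_mul_cancel₀ h2, one_smul]
  · intro i
    rw [e, Pi.smul_apply, smul_eq_mul]
    refine mul_ne_zero h2 ?_
    fin_cases i
    · exact h0
    · exact sub_ne_zero.2 (Ne.symm h1)
    · exact one_ne_zero
  · rw [e, rS_smul _ h2, rS_vec h0 h1]
  · rw [e, ht_smul h2]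
    exact ht_lo x
  · rw [e, ht_smul h2]
    exact ht_up x

theorem values_image {D : ℕ} {P : Fin 3 → K[X]} (hs : P 0 + P 1 = P 2) {X : ℝ} (hX : 1 ≤ X) :
    (fun x : K => Projectivization.mk K (![x, 1 - x, 1] : Fin 3 → K) (vec_ne x)) ''
      Values D P X = Pk D (∅ : Set (Pr K)) P X := by
  have hX0 : 0 < X := by linarith
  ext Q
  constructor
  · rintro ⟨x, ⟨h0, h1, ⟨t, h2, hx⟩, hc⟩, rfl⟩
    rw [coordinates_eq] at h2 hx
    obtain ⟨hne, e1, e2, e3, -, -⟩ := value_data hs h0 h1 h2 hx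
    refine ⟨t, hne, e1, e2, ?_⟩
    rw [e3]
    exact (Real.le_log_iff_exp_le hX0).2 hc
  · rintro ⟨t, hne, rfl, h3, h4⟩
    have h2 := h3 2
    have h0 : co D P t 0 / co D P t 2 ≠ 0 := div_ne_zero (h3 0) h2
    have h1 : co D P t 0 / co D P t 2 ≠ 1 := by
      intro h
      rw [div_eq_one_iff_eq h2] at h
      have h5 := co_sum (D := D) hs t
      rw [h] at h5
      exact h3 1 (by simpa using h5)
    obtain ⟨hne', e1, -, e3, -, -⟩ := value_data hs h0 h1 h2 rfl
    refine ⟨co D P t 0 / co D P t 2, ⟨h0, h1, ⟨t, ?_, ?_⟩, ?_⟩, e1⟩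
    · rw [coordinates_eq]; exact h2
    · rw [coordinates_eq]
    · rw [e3] at h4
      exact (Real.le_log_iff_exp_le hX0).1 h4

theorem values_ncard {D : ℕ} {P : Fin 3 → K[X]} (hs : P 0 + P 1 = P 2) {X : ℝ} (hX : 1 ≤ X) :
    (Values D P X).ncard = (Pk D (∅ : Set (Pr K)) P X).ncard := by
  rw [← values_image hs hX, Set.ncard_image_of_injective _ phi_inj]

omit [NumberField K] in
theorem sub_count {A : Set K} {B : Set (Projectivization K (Fin 3 → K))}
    (h : (fun x : K => Projectivization.mk K (![x, 1 - x, 1] : Fin 3 → K) (vec_ne x)) '' A ⊆ B)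
    (hB : B.Finite) : A.Finite ∧ (A.ncard : ℝ) ≤ (B.ncard : ℝ) := by
  refine ⟨Set.Finite.of_finite_image (hB.subset h) phi_inj.injOn, ?_⟩
  rw [← Set.ncard_image_of_injective A phi_inj]
  exact_mod_cast Set.ncard_le_ncard h hB

theorem allValues_sub {D q : ℕ} {η X : ℝ} (hX : 1 ≤ X) :
    (fun x : K => Projectivization.mk K (![x, 1 - x, 1] : Fin 3 → K) (vec_ne x)) ''
      AllValues K D q η X ⊆ APk K 3 D q η X := by
  rintro Q ⟨x, ⟨P, hP, hx⟩, rfl⟩
  refine ⟨∅, P, isFunction_ck hP, ?_⟩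
  rw [Finset.coe_empty, ← values_image hP.sum_eq hX]
  exact ⟨x, hx, rfl⟩

theorem exceptions_sub {D q : ℕ} {η κ c X : ℝ} (hX : 1 ≤ X) :
    (fun x : K => Projectivization.mk K (![x, 1 - x, 1] : Fin 3 → K) (vec_ne x)) ''
      Exceptions K D q η κ c X ⊆ EXk K 3 D q η κ (-c) X := by
  have hX0 : 0 < X := by linarith
  rintro Q ⟨x, ⟨⟨P, hP, h0, h1, ⟨t, h2, hx⟩, hc⟩, h5⟩, rfl⟩
  rw [coordinates_eq] at h2 hx
  obtain ⟨hne, e1, e2, e3, e4, -⟩ := value_data hP.sum_eq h0 h1 h2 hx
  refine ⟨∅, P, isFunction_ck hP, t, hne, e1, e2, ?_, ?_⟩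
  · rw [Finset.coe_empty, e3]
    exact (Real.le_log_iff_exp_le hX0).2 hc
  · rw [Finset.coe_empty, e3]
    linarith

theorem points_ge {D q : ℕ} (hD : 1 ≤ D) {B : ℝ} {P : Fin 3 → K[X]} (hP : IsFunction D q B P) :
    D + 2 ≤ q := by
  have hall : ∀ i, (![P 0, P 1, -P 2] : Fin 3 → K[X]) i = P i ∨
      (![P 0, P 1, -P 2] : Fin 3 → K[X]) i = -P i := by
    intro i
    fin_cases i
    · exact Or.inl rfl
    · exact Or.inl rfl
    · exact Or.inr rfl
  have hdeg : ∀ i, ((![P 0, P 1, -P 2] : Fin 3 → K[X]) i).natDegree = (P i).natDegree := by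
    intro i
    rcases hall i with h | h
    · rw [h]
    · rw [h, natDegree_neg]
  have h4 := Pool.Agent.Y557.NF.mason_q (P := ![P 0, P 1, -P 2]) (D := D) (fun i => ?_)
    (fun i => ?_) ?_ ?_ (fun i => ?_) ?_ hD
  · refine h4.trans ?_
    rw [← hP.points]
    unfold zeros Pool.Agent.Y557.NF.nz
    refine add_le_add (le_of_eq (congrArg Finset.card (Finset.ext fun r => ?_))) ?_
    · refine (@Multiset.mem_toFinset _ (_) _ _).trans
        (Iff.trans ?_ (@Multiset.mem_toFinset _ (_) _ _).symm)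
      have e : ∏ i, (![P 0, P 1, -P 2] : Fin 3 → K[X]) i = -∏ i, P i := by
        rw [Fin.prod_univ_three, Fin.prod_univ_three]
        simp only [Matrix.cons_val_zero, Matrix.cons_val_one, Matrix.cons_val]
        ring
      rw [e, roots_neg]
    · by_cases h5 : Pool.Agent.Y557.NF.Unequal (![P 0, P 1, -P 2] : Fin 3 → K[X])
      · rw [if_pos h5]
        obtain ⟨a, b, hab⟩ := h5
        rw [hdeg, hdeg] at hab
        rw [if_pos ⟨a, lt_of_lt_of_le hab (hP.degree_le b)⟩]
      · rw [if_neg h5]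
        exact Nat.zero_le _
  · rcases hall i with h | h
    · rw [h]; exact hP.ne_zero i
    · rw [h]; exact neg_ne_zero.2 (hP.ne_zero i)
  · rcases hall i with h | h
    · rw [h]; exact hP.splits i
    · rw [h]; exact (hP.splits i).neg
  · simp only [Matrix.cons_val_zero, Matrix.cons_val_one, Matrix.cons_val]
    rw [hP.sum_eq]
    ring
  · exact hP.coprime
  · rw [hdeg]; exact hP.degree_le i
  · obtain ⟨i, hi⟩ := hP.degree_eq
    exact ⟨i, by rw [hdeg]; exact hi⟩

theorem claim_holds (K : Type) [Field K] [NumberField K] (D q : ℕ) (hD : 1 ≤ D) (hq : 3 ≤ q) :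
    Claim K D q := by
  obtain ⟨h1, h2, C3, hC3, h3⟩ := abk_main K 3 D q hD hq
  refine ⟨fun B P hP => points_ge hD hP, fun δ hδ => ?_, fun M hM => ?_, ?_⟩
  · obtain ⟨η, hη, ⟨C, hC⟩, X0, hX0⟩ := h1 δ hδ
    refine ⟨η, hη, ⟨C, fun X hX => ?_⟩, max 1 X0, fun X hX P hP => ?_⟩
    · obtain ⟨h4, h5⟩ := hC X hX
      obtain ⟨h6, h7⟩ := sub_count (allValues_sub (K := K) (D := D) (q := q) (η := η) hX) h4
      exact ⟨h6, h7.trans h5⟩
    · rw [values_ncard hP.sum_eq ((le_max_left _ _).trans hX)]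
      have h4 := hX0 X ((le_max_right _ _).trans hX) ∅ P (isFunction_ck hP)
      rw [Finset.coe_empty] at h4
      exact h4
  · obtain ⟨η, ν, hη, hν, h4⟩ := h2 M hM
    refine ⟨η, ν, hη, hν, fun c => ?_⟩
    obtain ⟨⟨C, hC⟩, X0, hX0⟩ := h4 (-c)
    refine ⟨⟨C, fun X hX => ?_⟩, max 1 X0, fun X hX P hP => ?_⟩
    · obtain ⟨h5, h6⟩ := hC X hX
      obtain ⟨h7, h8⟩ := sub_count
        (exceptions_sub (K := K) (D := D) (q := q) (η := η) (κ := M) (c := c) hX) h5
      exact ⟨h7, h8.trans h6⟩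
    · have k1 : 1 ≤ X := (le_max_left _ _).trans hX
      obtain ⟨h5, -⟩ := hC X k1
      obtain ⟨-, h8⟩ := sub_count
        (exceptions_sub (K := K) (D := D) (q := q) (η := η) (κ := M) (c := c) k1) h5
      rw [values_ncard hP.sum_eq k1]
      refine h8.trans ?_
      have h9 := hX0 X ((le_max_right _ _).trans hX) ∅ P (isFunction_ck hP)
      rw [Finset.coe_empty] at h9
      exact h9
  · refine ⟨C3 + q * Real.log 2, fun B P hP X x hx => ?_⟩
    obtain ⟨h4, h5, ⟨t, h6, h7⟩, -⟩ := hx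
    rw [coordinates_eq] at h6 h7
    obtain ⟨hne, -, e2, e3, -, e5⟩ := value_data hP.sum_eq h4 h5 h6 h7
    have hck := isFunction_ck hP
    have hB : 0 ≤ B := by
      have := hck.hS
      rwa [Finset.sum_empty, zero_div] at this
    have h8 := h3 B ∅ P hck t hne e2
    rw [Finset.coe_empty, e3] at h8
    have hq0 : (0 : ℝ) ≤ q := Nat.cast_nonneg _
    have h9 := mul_le_mul_of_nonneg_left e5 hq0
    have hl : 0 ≤ (q : ℝ) * Real.log 2 := mul_nonneg hq0 (Real.log_nonneg (by norm_num))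
    have h10 : (q : ℝ) * Real.log 2 ≤ q * Real.log 2 * (B + 1) :=
      le_mul_of_one_le_right hl (by linarith)
    rw [mul_add] at h9
    rw [add_mul]
    linarith

end Pool.Agent.Results.MP_f5a5f7_nt.AllThinSetsAtOnce
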